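import Pool.Agent.Helper506.MeansOfUnivalent

open Complex Metric Set Pool.Agent.Helper506.Means

namespace Pool.Agent.Results.MP_f04b5a_an.ArithmeticMean

theorem valence_eq_top {h : ℂ → ℂ} {w : ℂ}
    (hw : {z : ℂ | z ∈ ball (0 : ℂ) 1 ∧ h z = w}.Infinite) : valence h = ⊤ := by
  rw [eq_top_iff, ← hw.encard_eq]
  exact le_iSup (fun w : ℂ => {z : ℂ | z ∈ ball (0 : ℂ) 1 ∧ h z = w}.encard) w

/-- For every weight `α` in `(0,1)`, and so for every `α` in `(0, 1/(1+e^π)]`, there are two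
functions of the class `S` whose arithmetic mean `α f + (1-α) g` has infinite valence. -/
theorem result : ∀ α : ℝ, 0 < α → α < 1 → ∃ f g : ℂ → ℂ, ClassS f ∧ ClassS g ∧
    valence (fun z => (α : ℂ) * f z + (1 - (α : ℂ)) * g z) = ⊤ := by
  intro α h0 h1
  have hc1 : 1 ≤ |(c1⁻¹).re| := by rw [c1_inv]; simp
  have hc2 : 1 ≤ |(c2⁻¹).re| := by rw [c2_inv]; simp
  have hS2 : ClassS (Phi 1 c2) := Phi_classS one_pos le_rfl c2_ne hc2
  rcases le_total α (1 - α) with h | h
  · have hβ : 0 < 1 - α := by linarith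
    have hq1 : α / (1 - α) ≤ 1 := (div_le_one hβ).mpr h
    have hq0 : 0 < α / (1 - α) := by positivity
    refine ⟨Phi ((α / (1 - α)) ^ 2) c1, Phi 1 c2,
      Phi_classS (by positivity) (by nlinarith) c1_ne hc1, hS2, ?_⟩
    apply valence_eq_top (w := -(α : ℂ) / (4 * c1 * ((α / (1 - α)) ^ 2 : ℝ)) -
      ((1 - α : ℝ) : ℂ) / (4 * c2))
    have := arith_main h0 h
    push_cast at this ⊢
    exact this
  · have hβ : 0 < 1 - α := by linarith
    have hq1 : (1 - α) / α ≤ 1 := (div_le_one h0).mpr h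
    have hq0 : 0 < (1 - α) / α := by positivity
    refine ⟨Phi 1 c2, Phi (((1 - α) / α) ^ 2) c1, hS2,
      Phi_classS (by positivity) (by nlinarith) c1_ne hc1, ?_⟩
    apply valence_eq_top (w := -((1 - α : ℝ) : ℂ) / (4 * c1 * (((1 - α) / α) ^ 2 : ℝ)) -
      (α : ℂ) / (4 * c2))
    have := arith_main hβ h
    push_cast at this ⊢
    convert this using 5
    ring

end Pool.Agent.Results.MP_f04b5a_an.ArithmeticMean
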