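import Pool.Agent.Helper506.MeansOfUnivalent

open Complex Metric Set Pool.Agent.Helper506.Means

namespace Pool.Agent.Results.MP_f04b5a_an.GeometricMean

theorem valence_eq_top {h : ℂ → ℂ} {w : ℂ}
    (hw : {z : ℂ | z ∈ ball (0 : ℂ) 1 ∧ h z = w}.Infinite) : valence h = ⊤ := by
  rw [eq_top_iff, ← hw.encard_eq]
  exact le_iSup (fun w : ℂ => {z : ℂ | z ∈ ball (0 : ℂ) 1 ∧ h z = w}.encard) w

/-- every function of the class `S` has its branch of `log (f z / z)` -/
theorem exists_logBranch {f : ℂ → ℂ} (hf : ClassS f) : ∃ L, IsLogBranch f L := by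
  obtain ⟨hd, hinj, h0, h1⟩ := hf
  have hnhds : ball (0 : ℂ) 1 ∈ nhds (0 : ℂ) := isOpen_ball.mem_nhds (mem_ball_self one_pos)
  set F := dslope f 0 with hF
  have hFd : DifferentiableOn ℂ F (ball 0 1) := (differentiableOn_dslope hnhds).mpr hd
  have hF0 : F 0 = 1 := by rw [hF, dslope_same, h1]
  have hFz : ∀ z, f z = z * F z := by
    intro z
    by_cases hz : z = 0
    · rw [hz, h0, zero_mul]
    · rw [hF, dslope_of_ne _ hz, slope_def_field, h0]
      field_simp
      ring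
  have hFne : ∀ z ∈ ball (0 : ℂ) 1, F z ≠ 0 := by
    intro z hz hzero
    by_cases hz0 : z = 0
    · rw [hz0, hF0] at hzero
      exact one_ne_zero hzero
    · have h2 : f z = f 0 := by rw [hFz z, hzero, mul_zero, h0]
      exact hz0 (hinj hz (mem_ball_self one_pos) h2)
  have hq : DifferentiableOn ℂ (fun z => deriv F z / F z) (ball 0 1) :=
    (hFd.deriv isOpen_ball).div hFd hFne
  obtain ⟨L, hL0, hL⟩ := hq.isExactOn_ball.with_val_at 0 0
  refine ⟨L, fun z hz => (hL z hz).differentiableAt.differentiableWithinAt, hL0, ?_⟩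
  have hG : ∀ z ∈ ball (0 : ℂ) 1, HasDerivAt (fun z => F z * exp (-(L z))) 0 z := by
    intro z hz
    have h2 : HasDerivAt F (deriv F z) z :=
      (hFd.differentiableAt (isOpen_ball.mem_nhds hz)).hasDerivAt
    have h3 : HasDerivAt (fun z => F z * exp (-(L z)))
        (deriv F z * exp (-(L z)) + F z * (exp (-(L z)) * -(deriv F z / F z))) z :=
      h2.mul ((hL z hz).neg.cexp)
    refine h3.congr_deriv ?_
    have h6 : F z * (deriv F z / F z) = deriv F z := by
      have := hFne z hz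
      field_simp
    linear_combination -(exp (-(L z))) * h6
  intro z hz
  have h4 := isOpen_ball.is_const_of_deriv_eq_zero (convex_ball (0 : ℂ) 1).isPreconnected
    (fun z hz => (hG z hz).differentiableAt.differentiableWithinAt)
    (fun z hz => (hG z hz).deriv) hz (mem_ball_self one_pos)
  simp only [hF0, hL0, neg_zero, exp_zero, mul_one] at h4
  rw [hFz z]
  congr 1
  rw [exp_neg] at h4
  exact (mul_inv_eq_one₀ (exp_ne_zero (L z))).mp h4

theorem const_of_exp_const {S : Set ℂ} (hS : IsOpen S) (hc : IsPreconnected S) {M : ℂ → ℂ}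
    (hM : DifferentiableOn ℂ M S) {c : ℂ} (h : ∀ τ ∈ S, exp (M τ) = c) {x y : ℂ} (hx : x ∈ S)
    (hy : y ∈ S) : M x = M y := by
  refine hS.is_const_of_deriv_eq_zero hc hM ?_ hx hy
  intro τ hτ
  have h1 : HasDerivAt M (deriv M τ) τ := (hM.differentiableAt (hS.mem_nhds hτ)).hasDerivAt
  have h2 := h1.cexp
  have h3 : HasDerivAt (fun τ => exp (M τ)) 0 τ := by
    have : (fun τ => exp (M τ)) =ᶠ[nhds τ] fun _ => c := by
      filter_upwards [hS.mem_nhds hτ] with t ht using h t ht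
    exact (hasDerivAt_const τ c).congr_of_eventuallyEq this
  have h4 := h2.unique h3
  rcases mul_eq_zero.mp h4 with h5 | h5
  · exact absurd h5 (exp_ne_zero _)
  · exact h5

/-- `-log(1-x) = x exp(p x)` -/
noncomputable def p (x : ℂ) : ℂ := log (-log (1 - x) / x)

theorem q_bound {x : ℂ} (hx0 : x ≠ 0) (hx : ‖x‖ ≤ 1 / 2) : ‖-log (1 - x) / x - 1‖ ≤ ‖x‖ := by
  have h1 := norm_log_one_add_sub_self_le (z := -x) (by rw [norm_neg]; linarith)
  rw [norm_neg] at h1
  have hpos : 0 < ‖x‖ := norm_pos_iff.mpr hx0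
  have h2 : -log (1 - x) / x - 1 = -(log (1 + -x) - -x) / x := by
    rw [← sub_eq_add_neg]; field_simp; ring
  rw [h2, norm_div, norm_neg, div_le_iff₀ hpos]
  refine h1.trans ?_
  have h3 : (1 - ‖x‖)⁻¹ ≤ 2 := by
    rw [inv_le_comm₀ (by linarith) (by norm_num)]; linarith
  have h4 : ‖x‖ ^ 2 * (1 - ‖x‖)⁻¹ ≤ ‖x‖ ^ 2 * 2 := by gcongr
  nlinarith

theorem q_ne {x : ℂ} (hx0 : x ≠ 0) (hx : ‖x‖ ≤ 1 / 2) : -log (1 - x) / x ≠ 0 := by
  intro h
  have := q_bound hx0 hx
  rw [h] at this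
  norm_num at this
  linarith

theorem log_eq_p {x : ℂ} (hx0 : x ≠ 0) (hx : ‖x‖ ≤ 1 / 2) : log (1 - x) = -(x * exp (p x)) := by
  unfold p
  rw [exp_log (q_ne hx0 hx)]
  field_simp

theorem p_bound {x : ℂ} (hx0 : x ≠ 0) (hx : ‖x‖ ≤ 1 / 2) : ‖p x‖ ≤ 3 / 2 * ‖x‖ := by
  have h1 := q_bound hx0 hx
  have h2 := norm_log_one_add_half_le_self (h1.trans hx)
  rw [add_sub_cancel] at h2
  unfold p
  linarith

theorem p_diff {X : ℂ → ℂ} {S : Set ℂ} (hX : DifferentiableOn ℂ X S)
    (hX0 : ∀ τ ∈ S, X τ ≠ 0) (hX1 : ∀ τ ∈ S, ‖X τ‖ ≤ 1 / 2) :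
    DifferentiableOn ℂ (fun τ => p (X τ)) S := by
  have hs : ∀ τ ∈ S, 1 - X τ ∈ slitPlane := by
    intro τ hτ
    rw [mem_slitPlane_iff]; left
    have := (abs_re_le_norm (X τ)).trans (hX1 τ hτ)
    rw [sub_re, one_re]
    linarith [(abs_le.mp this).2]
  have h1 : DifferentiableOn ℂ (fun τ => -log (1 - X τ) / X τ) S := by
    refine DifferentiableOn.div (DifferentiableOn.neg ?_) hX hX0
    exact DifferentiableOn.clog (hX.const_sub 1) hs
  refine DifferentiableOn.clog h1 ?_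
  intro τ hτ
  rw [mem_slitPlane_iff]; left
  have h2 := (abs_re_le_norm _).trans ((q_bound (hX0 τ hτ) (hX1 τ hτ)).trans (hX1 τ hτ))
  rw [sub_re, one_re] at h2
  linarith [(abs_le.mp h2).1]

theorem zt_slit {τ : ℂ} (h : |τ.im| ≤ 1) (h0 : 0 < τ.re) : zt τ ∈ slitPlane := by
  have hp := exp_half_re_pos h
  have h1 := add_one_ne hp
  have h3 : 1 < normSq (exp (τ / 2)) := by
    rw [normSq_eq_norm_sq, norm_exp]
    have h4 : 1 < Real.exp (τ / 2).re := by
      rw [Real.one_lt_exp_iff]; simp; exact h0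
    nlinarith
  rw [mem_slitPlane_iff]; left
  unfold zt
  set q := exp (τ / 2)
  rw [div_re, ← add_div]
  apply div_pos _ (normSq_pos.mpr h1)
  simp only [sub_re, one_re, sub_im, one_im, add_re, add_im]
  rw [normSq_apply] at h3
  nlinarith

theorem zt_diff {S : Set ℂ} (h : ∀ τ ∈ S, |τ.im| ≤ 1) : DifferentiableOn ℂ zt S := by
  intro τ hτ
  have h1 := add_one_ne (exp_half_re_pos (h τ hτ))
  apply DifferentiableAt.differentiableWithinAt
  unfold zt
  exact DifferentiableAt.div (by fun_prop) (by fun_prop) h1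

theorem exists_zero_linear' {η : ℂ → ℂ} {c : ℂ}
    (hd : DifferentiableOn ℂ η (closedBall c 1)) (hη : ∀ z ∈ closedBall c 1, ‖η z‖ ≤ 1 / 4) :
    ∃ z ∈ closedBall c 1, I * (z - c) + η z = 0 ∧ ‖z - c‖ ≤ 1 / 4 := by
  obtain ⟨z, hz, h0⟩ := exists_zero_linear hd hη
  refine ⟨z, hz, h0, ?_⟩
  have h1 : ‖I * (z - c)‖ = ‖η z‖ := by
    rw [eq_neg_of_add_eq_zero_left h0, norm_neg]
  rw [norm_mul, norm_I, one_mul] at h1
  rw [h1]
  exact hη z hz

/-- the half strip on which everything is explicit -/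
def St (R : ℝ) : Set ℂ := {τ : ℂ | R < τ.re ∧ τ.im < 1 ∧ -1 < τ.im}

theorem St_im {R : ℝ} {τ : ℂ} (h : τ ∈ St R) : |τ.im| ≤ 1 :=
  abs_le.mpr ⟨h.2.2.le, h.2.1.le⟩

theorem St_open (R : ℝ) : IsOpen (St R) :=
  (isOpen_lt continuous_const continuous_re).inter
    ((isOpen_lt continuous_im continuous_const).inter (isOpen_lt continuous_const continuous_im))

theorem St_convex (R : ℝ) : Convex ℝ (St R) :=
  (convex_halfSpace_re_gt R).inter
    ((convex_halfSpace_im_lt 1).inter (convex_halfSpace_im_gt (-1)))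

/-- For a function `F = C (1 - X)` near the point `1`, the branch of `log (F z / z)` differs from
`log (1 - X) - log z` by a constant. -/
theorem branch_const {R : ℝ} (hR : 0 ≤ R) {f L X : ℂ → ℂ} {C : ℂ} (hL : IsLogBranch f L)
    (hf : ∀ τ ∈ St R, f (zt τ) = C * (1 - X τ)) (hX : DifferentiableOn ℂ X (St R))
    (hX1 : ∀ τ ∈ St R, ‖X τ‖ ≤ 1 / 2) :
    ∃ K : ℂ, ∀ τ ∈ St R, L (zt τ) = K + log (1 - X τ) - log (zt τ) := by
  set M : ℂ → ℂ := fun τ => L (zt τ) - log (1 - X τ) + log (zt τ) with hM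
  have hzt : ∀ τ ∈ St R, zt τ ∈ ball (0 : ℂ) 1 := fun τ hτ => zt_mem (St_im hτ)
  have hzs : ∀ τ ∈ St R, zt τ ∈ slitPlane := fun τ hτ =>
    zt_slit (St_im hτ) (lt_of_le_of_lt hR hτ.1)
  have hztd : DifferentiableOn ℂ zt (St R) := zt_diff (fun τ hτ => St_im hτ)
  have hXs : ∀ τ ∈ St R, 1 - X τ ∈ slitPlane := by
    intro τ hτ
    rw [mem_slitPlane_iff]; left
    have := (abs_re_le_norm (X τ)).trans (hX1 τ hτ)
    rw [sub_re, one_re]
    linarith [(abs_le.mp this).2]
  have hMd : DifferentiableOn ℂ M (St R) := by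
    refine DifferentiableOn.add (DifferentiableOn.sub ?_ ?_) ?_
    · exact hL.1.comp hztd hzt
    · exact DifferentiableOn.clog (hX.const_sub 1) hXs
    · exact DifferentiableOn.clog hztd hzs
  have hMe : ∀ τ ∈ St R, exp (M τ) = C := by
    intro τ hτ
    have h1 := hL.2.2 (zt τ) (hzt τ hτ)
    have h2 := slitPlane_ne_zero (hXs τ hτ)
    have h3 := slitPlane_ne_zero (hzs τ hτ)
    rw [hf τ hτ] at h1
    simp only [hM]
    rw [exp_add, exp_sub, exp_log h2, exp_log h3]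
    field_simp
    linear_combination -h1
  have hne : (((R + 1 : ℝ) : ℂ)) ∈ St R := by simp [St]
  refine ⟨M ((R + 1 : ℝ) : ℂ), fun τ hτ => ?_⟩
  have h4 := const_of_exp_const (St_open R) (St_convex R).isPreconnected hMd hMe hτ hne
  rw [← h4]
  simp only [hM]
  ring

theorem geo_main {α β : ℝ} (hα : 0 < α) (hαβ : α ≤ β) (hsum : α + β = 1) {Lf Lg : ℂ → ℂ}
    (hLf : IsLogBranch (Phi ((α / β) ^ 2) (-c1)) Lf) (hLg : IsLogBranch (Phi 1 (-c2)) Lg) :
    ∃ w : ℂ, {z : ℂ | z ∈ ball (0 : ℂ) 1 ∧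
      z * exp ((α : ℂ) * Lf z + β * Lg z) = w}.Infinite := by
  have hβ : 0 < β := lt_of_lt_of_le hα hαβ
  set e : ℝ := (α / β) ^ 2 with he
  have he0 : 0 < e := by positivity
  have he1 : e ≤ 1 := by
    have : α / β ≤ 1 := (div_le_one hβ).mpr hαβ
    have h2 : 0 < α / β := by positivity
    rw [he]; nlinarith
  set lam : ℝ := Real.log (α / β) with hlam
  have hloge : Real.log e = 2 * lam := by
    rw [he, hlam, Real.log_pow]; norm_num
  have hpi := Real.pi_gt_three
  set X : ℂ → ℂ := fun τ => exp (-(c1 * (Real.log e + τ + del e τ))) with hX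
  set Y : ℂ → ℂ := fun τ => exp (-(c2 * τ)) with hY
  obtain ⟨R, hR0, hR1, hR2, hR3⟩ : ∃ R : ℝ, 0 ≤ R ∧ (1 - e) / e / (1 / 100) ≤ R ∧
      Real.log 100 ≤ R / 2 + lam - 3 / 2 ∧ Real.log 100 ≤ R / 2 - 1 := by
    refine ⟨|(1 - e) / e / (1 / 100)| + |2 * (Real.log 100 - lam + 3 / 2)| +
      |2 * (Real.log 100 + 1)|, by positivity, ?_, ?_, ?_⟩
    · have h1 := le_abs_self ((1 - e) / e / (1 / 100))
      have h2 := abs_nonneg (2 * (Real.log 100 - lam + 3 / 2))
      have h3 := abs_nonneg (2 * (Real.log 100 + 1))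
      linarith
    · have h1 := abs_nonneg ((1 - e) / e / (1 / 100))
      have h2 := le_abs_self (2 * (Real.log 100 - lam + 3 / 2))
      have h3 := abs_nonneg (2 * (Real.log 100 + 1))
      linarith
    · have h1 := abs_nonneg ((1 - e) / e / (1 / 100))
      have h2 := abs_nonneg (2 * (Real.log 100 - lam + 3 / 2))
      have h3 := le_abs_self (2 * (Real.log 100 + 1))
      linarith
  -- closed strip estimates
  have hx : ∀ τ : ℂ, R ≤ τ.re → ‖(((1 - e) / e : ℝ) : ℂ) * exp (-τ)‖ ≤ 1 / 100 :=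
    fun τ hτ => small_of_re he0 he1 (by norm_num) (hR1.trans hτ)
  have hdel : ∀ τ : ℂ, R ≤ τ.re → ‖del e τ‖ ≤ 3 / 2 * (1 / 100) := by
    intro τ hτ
    have h1 := norm_log_one_add_half_le_self ((hx τ hτ).trans (by norm_num))
    unfold del
    linarith [hx τ hτ]
  have hXn : ∀ τ : ℂ, R ≤ τ.re → |τ.im| ≤ 1 → ‖X τ‖ ≤ 1 / 100 := by
    intro τ hτ hi
    have h1 := hdel τ hτ
    have h2 := abs_le.mp ((abs_re_le_norm (del e τ)).trans h1)
    have h3 := abs_le.mp ((abs_im_le_norm (del e τ)).trans h1)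
    obtain ⟨h4, h5⟩ := abs_le.mp hi
    simp only [hX]
    rw [norm_exp, hloge]
    have h6 : (-(c1 * (((2 * lam : ℝ) : ℂ) + τ + del e τ))).re =
        -((2 * lam + τ.re + (del e τ).re) - (τ.im + (del e τ).im)) / 2 := by
      simp only [c1, neg_re, mul_re, add_re, ofReal_re, add_im, ofReal_im, div_ofNat_re,
        div_ofNat_im, one_re, one_im, I_re, I_im]
      ring
    rw [h6, ← Real.exp_log (show (0 : ℝ) < 1 / 100 by norm_num)]
    apply Real.exp_le_exp.mpr
    rw [one_div, Real.log_inv]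
    linarith
  have hYn : ∀ τ : ℂ, R ≤ τ.re → |τ.im| ≤ 1 → ‖Y τ‖ ≤ 1 / 100 := by
    intro τ hτ hi
    obtain ⟨h4, h5⟩ := abs_le.mp hi
    simp only [hY]
    rw [norm_exp]
    have h6 : (-(c2 * τ)).re = -(τ.re + τ.im) / 2 := by
      simp only [c2, neg_re, mul_re, sub_re, sub_im, div_ofNat_re,
        div_ofNat_im, one_re, one_im, I_re, I_im]
      ring
    rw [h6, ← Real.exp_log (show (0 : ℝ) < 1 / 100 by norm_num)]
    apply Real.exp_le_exp.mpr
    rw [one_div, Real.log_inv]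
    linarith
  have hX0 : ∀ τ, X τ ≠ 0 := fun τ => exp_ne_zero _
  have hY0 : ∀ τ, Y τ ≠ 0 := fun τ => exp_ne_zero _
  have hXd : ∀ S : Set ℂ, (∀ τ ∈ S, R ≤ τ.re) → DifferentiableOn ℂ X S := by
    intro S hS
    have h1 : DifferentiableOn ℂ (del e) S :=
      differentiableOn_del (fun τ hτ => (hx τ (hS τ hτ)).trans (by norm_num))
    simp only [hX]
    exact (((differentiableOn_id.const_add _).add h1).const_mul c1).neg.cexp
  have hYd : ∀ S : Set ℂ, DifferentiableOn ℂ Y S := by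
    intro S
    simp only [hY]
    fun_prop
  have hlogU : ∀ τ : ℂ, R ≤ τ.re → |τ.im| ≤ 1 →
      log (U e (zt τ)) = Real.log e + τ + del e τ := fun τ hτ hi =>
    log_U he0 hi ((hx τ hτ).trans (by norm_num))
  have hlogU1 : ∀ τ : ℂ, |τ.im| ≤ 1 → log (U 1 (zt τ)) = τ := by
    intro τ hi
    have := log_U one_pos hi (τ := τ) (by simp)
    simpa [del] using this
  -- the branches
  obtain ⟨Kf, hKf⟩ := branch_const hR0 hLf (X := X) (C := 1 / (4 * c1 * e))
    (fun τ hτ => by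
      unfold Phi
      rw [hlogU τ hτ.1.le (St_im hτ)]
      have h1 := c1_ne
      have h2 : (e : ℂ) ≠ 0 := by exact_mod_cast he0.ne'
      simp only [hX]
      rw [show -c1 * (Real.log e + τ + del e τ) = -(c1 * (Real.log e + τ + del e τ)) by ring]
      field_simp
      ring)
    (hXd _ fun τ hτ => hτ.1.le) (fun τ hτ => (hXn τ hτ.1.le (St_im hτ)).trans (by norm_num))
  obtain ⟨Kg, hKg⟩ := branch_const hR0 hLg (X := Y) (C := 1 / (4 * c2))
    (fun τ hτ => by
      unfold Phi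
      rw [hlogU1 τ (St_im hτ)]
      have h1 := c2_ne
      simp only [hY]
      rw [show -c2 * τ = -(c2 * τ) by ring]
      push_cast
      field_simp
      ring)
    (hYd _) (fun τ hτ => (hYn τ hτ.1.le (St_im hτ)).trans (by norm_num))
  -- the solutions
  set T : ℕ → ℝ := fun m => Real.pi * (2 * m + 1) - lam with hT
  obtain ⟨N0, hN0⟩ : ∃ N0 : ℕ, ∀ m : ℕ, N0 ≤ m → R < T m - 1 := by
    obtain ⟨N, hN⟩ := exists_nat_gt (R + 1 + lam)
    refine ⟨N, fun m hm => ?_⟩
    have h1 : (N : ℝ) ≤ m := by exact_mod_cast hm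
    have h2 : (0 : ℝ) ≤ m := by positivity
    simp only [hT]
    nlinarith
  have hball : ∀ m, N0 ≤ m → ∀ τ ∈ closedBall ((T m : ℝ) : ℂ) 1,
      R < τ.re ∧ |τ.im| ≤ 1 ∧ |τ.re - T m| ≤ 1 := by
    intro m hm τ hτ
    have h1 : ‖τ - (T m : ℝ)‖ ≤ 1 := by simpa [dist_eq_norm] using hτ
    have h2 := (abs_re_le_norm (τ - (T m : ℝ))).trans h1
    have h3 := (abs_im_le_norm (τ - (T m : ℝ))).trans h1
    rw [sub_re, ofReal_re] at h2
    rw [sub_im, ofReal_im, sub_zero] at h3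
    have := hN0 m hm
    exact ⟨by linarith [(abs_le.mp h2).1], h3, h2⟩
  have hsol : ∀ m : ℕ, N0 ≤ m → ∃ τ ∈ closedBall ((T m : ℝ) : ℂ) 1,
      I * (τ - T m) + (c1 * del e τ - p (X τ) + p (Y τ)) = 0 ∧ ‖τ - T m‖ ≤ 1 / 4 := by
    intro m hm
    have hb := hball m hm
    apply exists_zero_linear' (η := fun τ => c1 * del e τ - p (X τ) + p (Y τ))
    · refine DifferentiableOn.add (DifferentiableOn.sub ?_ ?_) ?_
      · exact (differentiableOn_del
          (fun τ hτ => (hx τ (hb τ hτ).1.le).trans (by norm_num))).const_mul c1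
      · exact p_diff (hXd _ fun τ hτ => (hb τ hτ).1.le) (fun τ _ => hX0 τ)
          (fun τ hτ => (hXn τ (hb τ hτ).1.le (hb τ hτ).2.1).trans (by norm_num))
      · exact p_diff (hYd _) (fun τ _ => hY0 τ)
          (fun τ hτ => (hYn τ (hb τ hτ).1.le (hb τ hτ).2.1).trans (by norm_num))
    · intro τ hτ
      have h1 := hdel τ (hb τ hτ).1.le
      have h2 := hXn τ (hb τ hτ).1.le (hb τ hτ).2.1
      have h3 := hYn τ (hb τ hτ).1.le (hb τ hτ).2.1
      have h4 := p_bound (hX0 τ) (h2.trans (by norm_num))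
      have h5 := p_bound (hY0 τ) (h3.trans (by norm_num))
      have h6 : ‖c1 * del e τ‖ ≤ 3 / 2 * (1 / 100) := by
        rw [norm_mul]
        have := norm_c1_le
        nlinarith [norm_nonneg c1, norm_nonneg (del e τ)]
      have h7 := norm_add_le (c1 * del e τ - p (X τ)) (p (Y τ))
      have h8 := norm_sub_le (c1 * del e τ) (p (X τ))
      linarith
  choose! τ hτ1 hτ2 hτ3 using hsol
  refine ⟨exp (α * Kf + β * Kg), ?_⟩
  refine Set.infinite_of_injective_forall_mem (f := fun m : ℕ => zt (τ (m + N0))) ?_ ?_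
  · intro a b hab
    have ha : N0 ≤ a + N0 := by omega
    have hb : N0 ≤ b + N0 := by omega
    have h1 := zt_inj (hball _ ha _ (hτ1 _ ha)).2.1 (hball _ hb _ (hτ1 _ hb)).2.1 hab
    have h2 := abs_le.mp (hball _ ha _ (hτ1 _ ha)).2.2
    have h3 := abs_le.mp (hball _ hb _ (hτ1 _ hb)).2.2
    simp only [hT] at h2 h3
    push_cast at h2 h3
    by_contra hne
    rcases lt_or_gt_of_ne hne with hlt | hlt
    · have h4 : (a : ℝ) + 1 ≤ b := by exact_mod_cast hlt
      nlinarith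
    · have h4 : (b : ℝ) + 1 ≤ a := by exact_mod_cast hlt
      nlinarith
  · intro m
    have hm : N0 ≤ m + N0 := by omega
    show zt (τ (m + N0)) ∈ _
    obtain ⟨k, hk⟩ : ∃ k, k = m + N0 := ⟨_, rfl⟩
    rw [← hk] at hm ⊢
    obtain ⟨hre, him, -⟩ := hball _ hm _ (hτ1 _ hm)
    refine ⟨zt_mem him, ?_⟩
    have hXs := (hXn _ hre.le him).trans (show (1 : ℝ) / 100 ≤ 1 / 2 by norm_num)
    have hYs := (hYn _ hre.le him).trans (show (1 : ℝ) / 100 ≤ 1 / 2 by norm_num)
    have heq := hτ2 k hm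
    -- key identity
    have hkey : (α : ℂ) * log (1 - X (τ k)) + β * log (1 - Y (τ k)) = 0 := by
      rw [log_eq_p (hX0 _) hXs, log_eq_p (hY0 _) hYs]
      have h1 : X (τ k) * exp (p (X (τ k))) =
          Y (τ k) * exp (p (Y (τ k))) * (-((β / α : ℝ) : ℂ)) := by
        have h2 : -((β / α : ℝ) : ℂ) = exp (-(lam : ℂ) + -((Real.pi : ℂ) * I) +
            ((-(k : ℤ) : ℤ) : ℂ) * (2 * Real.pi * I)) := by
          have e1 : exp (-(lam : ℂ)) = ((β / α : ℝ) : ℂ) := by
            rw [← ofReal_neg, ← ofReal_exp, hlam, Real.exp_neg, Real.exp_log (by positivity),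
              inv_div]
          rw [exp_add, exp_add, exp_int_mul_two_pi_mul_I, mul_one, exp_neg (_ * I), exp_pi_mul_I,
            e1]
          norm_num
        rw [h2]
        generalize p (X (τ k)) = PX at heq ⊢
        generalize p (Y (τ k)) = PY at heq ⊢
        simp only [hX, hY]
        rw [← exp_add, ← exp_add, ← exp_add]
        congr 1
        rw [hloge]
        have h5 : (c1 - c2) = I := by unfold c1 c2; ring
        have h6 : (2 : ℂ) * c1 = 1 + I := by unfold c1; ring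
        simp only [hT] at heq
        push_cast at heq ⊢
        linear_combination -heq - (τ k) * h5 - (lam : ℂ) * h6
      have hαc : (α : ℂ) ≠ 0 := by exact_mod_cast hα.ne'
      have h3 : (α : ℂ) * ((β / α : ℝ) : ℂ) = β := by push_cast; field_simp
      linear_combination -(α : ℂ) * h1 + (Y (τ k) * exp (p (Y (τ k)))) * h3
    have hst : |(τ k).im| < 1 := by
      have h9 := abs_im_le_norm (τ k - (T k : ℝ))
      rw [sub_im, ofReal_im, sub_zero] at h9
      linarith [hτ3 k hm]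
    have hmem : τ k ∈ St R := ⟨hre, (abs_lt.mp hst).2, (abs_lt.mp hst).1⟩
    rw [hKf _ hmem, hKg _ hmem]
    have hz0 := slitPlane_ne_zero (zt_slit him (lt_of_le_of_lt hR0 hre))
    have hsumc : (α : ℂ) + β = 1 := by exact_mod_cast hsum
    have h8 : (α : ℂ) * (Kf + log (1 - X (τ k)) - log (zt (τ k))) +
        β * (Kg + log (1 - Y (τ k)) - log (zt (τ k))) = (α * Kf + β * Kg) - log (zt (τ k)) := by
      linear_combination hkey - log (zt (τ k)) * hsumc
    rw [h8, exp_sub, exp_log hz0]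
    field_simp

/-- For every weight `α` in `(0,1)`, and so for every `α` in `(0, 1/(1+e^π)]`, there are two
functions of the class `S` whose geometric mean `z exp(α log(f/z) + (1-α) log(g/z))` has infinite
valence. -/
theorem result : ∀ α : ℝ, 0 < α → α < 1 → ∃ f g Lf Lg : ℂ → ℂ, ClassS f ∧ ClassS g ∧
    IsLogBranch f Lf ∧ IsLogBranch g Lg ∧
    valence (fun z => z * exp ((α : ℂ) * Lf z + (1 - (α : ℂ)) * Lg z)) = ⊤ := by
  intro α h0 h1
  have hc1 : 1 ≤ |((-c1)⁻¹).re| := by rw [inv_neg, c1_inv]; simp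
  have hc2 : 1 ≤ |((-c2)⁻¹).re| := by rw [inv_neg, c2_inv]; simp
  have hS2 : ClassS (Phi 1 (-c2)) := Phi_classS one_pos le_rfl (neg_ne_zero.mpr c2_ne) hc2
  obtain ⟨Lg, hLg⟩ := exists_logBranch hS2
  rcases le_total α (1 - α) with h | h
  · have hβ : 0 < 1 - α := by linarith
    have hq1 : α / (1 - α) ≤ 1 := (div_le_one hβ).mpr h
    have hq0 : 0 < α / (1 - α) := by positivity
    have hS1 : ClassS (Phi ((α / (1 - α)) ^ 2) (-c1)) :=
      Phi_classS (by positivity) (by nlinarith) (neg_ne_zero.mpr c1_ne) hc1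
    obtain ⟨Lf, hLf⟩ := exists_logBranch hS1
    obtain ⟨w, hw⟩ := geo_main h0 h (by ring) hLf hLg
    refine ⟨_, _, Lf, Lg, hS1, hS2, hLf, hLg, ?_⟩
    apply valence_eq_top (w := w)
    push_cast at hw ⊢
    exact hw
  · have hβ : 0 < 1 - α := by linarith
    have hq1 : (1 - α) / α ≤ 1 := (div_le_one h0).mpr h
    have hq0 : 0 < (1 - α) / α := by positivity
    have hS1 : ClassS (Phi (((1 - α) / α) ^ 2) (-c1)) :=
      Phi_classS (by positivity) (by nlinarith) (neg_ne_zero.mpr c1_ne) hc1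
    obtain ⟨Lf, hLf⟩ := exists_logBranch hS1
    obtain ⟨w, hw⟩ := geo_main hβ h (by ring) hLf hLg
    refine ⟨_, _, Lg, Lf, hS2, hS1, hLg, hLf, ?_⟩
    apply valence_eq_top (w := w)
    push_cast at hw ⊢
    convert hw using 7
    ring

end Pool.Agent.Results.MP_f04b5a_an.GeometricMean
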